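import Mathlib

/-!
A finite monomial group and two of its subgroups of order `819`.
-/

namespace Pool.Agent.X146.SSF

/-- The nine coordinates. -/
abbrev Idx := ZMod 3 × ZMod 3

/-- The exponents: pairs (power of a primitive 91st root, power of a primitive 9th root). -/
abbrev Tor := ZMod 91 × ZMod 9

/-- Abstract monomial matrices. -/
@[ext] structure Mono where
  /-- the diagonal part -/
  u : Idx → Tor
  /-- the permutation part -/
  p : Equiv.Perm Idx

namespace Mono

instance : Mul Mono := ⟨fun a b => ⟨fun i => a.u i + b.u (a.p.symm i), a.p * b.p⟩⟩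
instance : One Mono := ⟨⟨fun _ => 0, 1⟩⟩
instance : Inv Mono := ⟨fun a => ⟨fun i => -a.u (a.p i), a.p⁻¹⟩⟩

theorem mul_u (a b : Mono) (i : Idx) : (a * b).u i = a.u i + b.u (a.p.symm i) := rfl
theorem mul_p (a b : Mono) : (a * b).p = a.p * b.p := rfl
theorem one_u (i : Idx) : (1 : Mono).u i = 0 := rfl
theorem one_p : (1 : Mono).p = 1 := rfl
theorem inv_u (a : Mono) (i : Idx) : (a⁻¹).u i = -a.u (a.p i) := rfl
theorem inv_p (a : Mono) : (a⁻¹).p = a.p⁻¹ := rfl

instance : Group Mono :=
  Group.ofLeftAxioms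
    (fun a b c => by
      ext1
      · funext i
        simp only [mul_u, mul_p, Equiv.Perm.mul_def, add_assoc]
        rfl
      · simp only [mul_p, mul_assoc])
    (fun a => by
      ext1
      · funext i
        rw [mul_u, one_u, zero_add]
        rfl
      · rw [mul_p, one_p, one_mul])
    (fun a => by
      ext1
      · funext i
        rw [mul_u, inv_u, one_u, inv_p]
        have : (a.p⁻¹).symm i = a.p i := rfl
        rw [this, neg_add_cancel]
      · rw [mul_p, inv_p, one_p, inv_mul_cancel])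

instance : Finite Mono :=
  Finite.of_injective (fun a : Mono => (a.u, a.p)) fun a b h => by
    have h1 := congrArg Prod.fst h
    have h2 := congrArg Prod.snd h
    exact Mono.ext h1 h2

end Mono

/-- The characters `i ↦ 16^(i.1) * 9^(i.2)`, a homomorphism to the units of order 3 mod 91. -/
def hh (i : Idx) : ZMod 91 := 16 ^ i.1.val * 9 ^ i.2.val

theorem hh_zero : hh 0 = 1 := by decide

theorem hh_add : ∀ i j : Idx, hh (i + j) = hh i * hh j := by decide

theorem hh_cube : ∀ i : Idx, hh i * (hh i * hh i) = 1 := by decide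

/-- reduction of exponents `mod 9` to `mod 3` -/
def cc : ZMod 9 →+* ZMod 3 := ZMod.castHom (by norm_num) (ZMod 3)

theorem cc_zero_iff : ∀ t : ZMod 9, cc t = 0 → ∃ k : ZMod 9, t = 3 * k := by decide

theorem three_mul_zero : ∀ t : ZMod 9, 3 * t = 0 → cc t = 0 := by decide

/-- The general element of the two groups. -/
def L (e : Idx) (s : ZMod 91) (t : ZMod 9) : Mono :=
  ⟨fun i => (s * hh i, t), Equiv.addRight (cc t • e)⟩

theorem L_u (e : Idx) (s : ZMod 91) (t : ZMod 9) (i : Idx) : (L e s t).u i = (s * hh i, t) := rfl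

theorem L_p_symm (e : Idx) (s : ZMod 91) (t : ZMod 9) (i : Idx) :
    (L e s t).p.symm i = i + -(cc t • e) := rfl

theorem L_p (e : Idx) (s : ZMod 91) (t : ZMod 9) (i : Idx) :
    (L e s t).p i = i + cc t • e := rfl

theorem L_mul (e : Idx) (s s' : ZMod 91) (t t' : ZMod 9) :
    L e s t * L e s' t' = L e (s + s' * hh (-(cc t • e))) (t + t') := by
  ext1
  · funext i
    rw [Mono.mul_u, L_u, L_u, L_u, L_p_symm, hh_add]
    ext1
    · show s * hh i + s' * (hh i * hh (-(cc t • e))) = _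
      ring
    · rfl
  · ext1 i
    rw [Mono.mul_p, Equiv.Perm.mul_apply, L_p, L_p, L_p, map_add, add_smul]
    abel

theorem L_one (e : Idx) : L e 0 0 = 1 := by
  ext1
  · funext i
    rw [L_u, Mono.one_u, zero_mul]
    rfl
  · ext1 i
    rw [L_p, map_zero, zero_smul, add_zero]
    rfl

theorem L_inj (e : Idx) {s s' : ZMod 91} {t t' : ZMod 9} (h : L e s t = L e s' t') :
    s = s' ∧ t = t' := by
  have h1 := congrFun (congrArg Mono.u h) 0
  rw [L_u, L_u, hh_zero, mul_one, mul_one] at h1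
  exact ⟨congrArg Prod.fst h1, congrArg Prod.snd h1⟩

theorem L_inv (e : Idx) (s : ZMod 91) (t : ZMod 9) :
    (L e s t)⁻¹ = L e (-(s * hh (cc t • e))) (-t) := by
  rw [inv_eq_iff_mul_eq_one, L_mul, ← L_one e]
  congr 1
  · have : hh (cc t • e) * hh (-(cc t • e)) = 1 := by rw [← hh_add, add_neg_cancel, hh_zero]
    linear_combination (-s) * this
  · ring

/-- The two groups, for `e = (1,0)` and `e = (0,1)`. -/
def Lam (e : Idx) : Subgroup Mono where
  carrier := {g | ∃ s t, g = L e s t}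
  mul_mem' := by
    rintro _ _ ⟨s, t, rfl⟩ ⟨s', t', rfl⟩
    exact ⟨_, _, L_mul e s s' t t'⟩
  one_mem' := ⟨0, 0, (L_one e).symm⟩
  inv_mem' := by
    rintro _ ⟨s, t, rfl⟩
    exact ⟨_, _, L_inv e s t⟩

theorem L_mem (e : Idx) (s : ZMod 91) (t : ZMod 9) : L e s t ∈ Lam e := ⟨s, t, rfl⟩

/-- The parametrisation of the two groups. -/
noncomputable def param (e : Idx) : Tor ≃ Lam e :=
  Equiv.ofBijective (fun q => ⟨L e q.1 q.2, L_mem e _ _⟩) (by
    constructor
    · intro q q' h
      have h1 : L e q.1 q.2 = L e q'.1 q'.2 := congrArg Subtype.val h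
      obtain ⟨h2, h3⟩ := L_inj e h1
      exact Prod.ext h2 h3
    · rintro ⟨_, s, t, rfl⟩
      exact ⟨(s, t), rfl⟩)

theorem param_coe (e : Idx) (q : Tor) : ((param e q : Lam e) : Mono) = L e q.1 q.2 := rfl

/-- The swap of the two factors. -/
def sw : Mono := ⟨fun _ => 0, Equiv.prodComm _ _⟩

theorem conj_sw (e : Idx) (t : ZMod 9) : sw * L e 0 t = L e.swap 0 t * sw := by
  ext1
  · funext i
    rw [Mono.mul_u, Mono.mul_u, L_u, L_u]
    simp [sw]
  · ext1 i
    rw [Mono.mul_p, Mono.mul_p, Equiv.Perm.mul_apply, Equiv.Perm.mul_apply, L_p, L_p]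
    rfl

theorem exists_inv_one : ∀ c : ZMod 3, c ≠ 0 →
    ∃ w : ZMod 91, w * (1 - hh (-(c • ((1, 0) : Idx)))) = 1 := by decide

theorem exists_inv_two : ∀ c : ZMod 3, c ≠ 0 →
    ∃ w : ZMod 91, w * (1 - hh (-(c • ((0, 1) : Idx)))) = 1 := by decide

theorem conj_L (e : Idx) (t : ZMod 9) (s w : ZMod 91)
    (hw : w * (1 - hh (-(cc t • e))) = 1) : IsConj (L e 0 t) (L e s t) := by
  refine isConj_iff.2 ⟨L e (s * w) 0, ?_⟩
  rw [mul_inv_eq_iff_eq_mul, L_mul, L_mul]
  congr 1
  · have h0 : hh (-(cc 0 • e)) = 1 := by rw [map_zero, zero_smul, neg_zero, hh_zero]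
    linear_combination s * hw
  · ring

theorem param_conj (q : Tor) : IsConj ((param (1, 0) q : Lam (1, 0)) : Mono)
    ((param (0, 1) q : Lam (0, 1)) : Mono) := by
  obtain ⟨s, t⟩ := q
  rw [param_coe, param_coe]
  show IsConj (L (1, 0) s t) (L (0, 1) s t)
  by_cases hc : cc t = 0
  · have : L (1, 0) s t = L (0, 1) s t := by
      unfold L
      rw [hc, zero_smul, zero_smul]
    rw [this]
  · obtain ⟨w, hw⟩ := exists_inv_one _ hc
    obtain ⟨w', hw'⟩ := exists_inv_two _ hc
    refine (conj_L _ t s w hw).symm.trans (IsConj.trans ?_ (conj_L _ t s w' hw'))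
    refine isConj_iff.2 ⟨sw, ?_⟩
    rw [mul_inv_eq_iff_eq_mul]
    exact conj_sw (1, 0) t

/-- The bijection between the two groups, moving each element inside its conjugacy class. -/
noncomputable def bij : Lam (1, 0) ≃ Lam (0, 1) := (param (1, 0)).symm.trans (param (0, 1))

theorem bij_conj (g : Lam (1, 0)) : IsConj (g : Mono) (bij g : Mono) := by
  have := param_conj ((param (1, 0)).symm g)
  rw [Equiv.apply_symm_apply] at this
  exact this

theorem L_pow (e : Idx) (s : ZMod 91) (n : ℕ) : L e s 0 ^ n = L e (n * s) 0 := by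
  induction n with
  | zero => rw [pow_zero, Nat.cast_zero, zero_mul, L_one]
  | succ n ih =>
    rw [pow_succ, ih, L_mul, add_zero]
    congr 1
    have h0 : hh (-(cc 0 • e)) = 1 := by rw [map_zero, zero_smul, neg_zero, hh_zero]
    rw [h0]
    push_cast
    ring

theorem L_pow_snd (e : Idx) (s : ZMod 91) (t : ZMod 9) (n : ℕ) :
    ∃ s', L e s t ^ n = L e s' (n * t) := by
  induction n with
  | zero => exact ⟨0, by rw [pow_zero, Nat.cast_zero, zero_mul, L_one]⟩
  | succ n ih =>
    obtain ⟨s', hs'⟩ := ih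
    refine ⟨s' + s * hh (-(cc ((n : ZMod 9) * t) • e)), ?_⟩
    rw [pow_succ, hs', L_mul]
    congr 1
    push_cast
    ring

/-- The relation in the first group. -/
theorem rel_one : L (1, 0) 0 1 * L (1, 0) 1 0 = L (1, 0) 1 0 ^ 74 * L (1, 0) 0 1 := by
  rw [L_pow, L_mul, L_mul]
  congr 1
  

theorem hh_two : ∀ c : ZMod 3, hh (-(c • ((0, 1) : Idx))) = 1 ∨
    hh (-(c • ((0, 1) : Idx))) = 81 ∨ hh (-(c • ((0, 1) : Idx))) = 9 := by decide

/-- The two groups are not isomorphic. -/
theorem not_iso : IsEmpty (Lam (1, 0) ≃* Lam (0, 1)) := by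
  constructor
  intro f
  let a : Lam (1, 0) := ⟨L (1, 0) 1 0, L_mem _ _ _⟩
  let b : Lam (1, 0) := ⟨L (1, 0) 0 1, L_mem _ _ _⟩
  have hab : b * a = a ^ 74 * b := by
    apply Subtype.ext
    have ha : (a : Mono) = L (1, 0) 1 0 := rfl
    have hb : (b : Mono) = L (1, 0) 0 1 := rfl
    rw [Subgroup.coe_mul, Subgroup.coe_mul, Subgroup.coe_pow, ha, hb, rel_one]
  have ha91 : a ^ 91 = 1 := by
    apply Subtype.ext
    have ha : (a : Mono) = L (1, 0) 1 0 := rfl
    rw [Subgroup.coe_pow, Subgroup.coe_one, ha, L_pow, ← L_one (1, 0), mul_one]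
    have h3 : ((91 : ℕ) : ZMod 91) = 0 := ZMod.natCast_self 91
    rw [h3]
  have hak : ∀ k : ℕ, ((k : ℕ) : ZMod 91) ≠ 0 → a ^ k ≠ 1 := by
    intro k hk h
    have h1 : L (1, 0) 1 0 ^ k = 1 := congrArg Subtype.val h
    rw [L_pow, ← L_one (1, 0)] at h1
    apply hk
    simpa using (L_inj _ h1).1
  obtain ⟨s, t, hst⟩ := (f a).2
  obtain ⟨s', t', hst'⟩ := (f b).2
  have h91 : (f a) ^ 91 = 1 := by rw [← map_pow, ha91, map_one]
  have ht : t = 0 := by
    have h1 : (L (0, 1) s t) ^ 91 = 1 := by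
      rw [← hst]; exact congrArg Subtype.val h91
    obtain ⟨s'', hs''⟩ := L_pow_snd (0, 1) s t 91
    rw [hs'', ← L_one (0, 1)] at h1
    have h2 := (L_inj _ h1).2
    have h3 : ((91 : ℕ) : ZMod 9) = 1 := by decide
    rwa [h3, one_mul] at h2
  subst ht
  have hrel : L (0, 1) s' t' * L (0, 1) s 0 = L (0, 1) s 0 ^ 74 * L (0, 1) s' t' := by
    rw [← hst, ← hst']
    have := congrArg f hab
    rw [map_mul, map_mul, map_pow] at this
    exact congrArg Subtype.val this
  rw [L_pow, L_mul, L_mul] at hrel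
  have h5 := (L_inj _ hrel).1
  have h0 : hh (-(cc 0 • ((0, 1) : Idx))) = 1 := by rw [map_zero, zero_smul, neg_zero, hh_zero]
  rw [h0] at h5
  have h6 : s * hh (-(cc t' • ((0, 1) : Idx))) = 74 * s := by
    push_cast at h5
    linear_combination h5
  have key : ∀ k : ℕ, ((k : ℕ) : ZMod 91) * s = 0 → ((k : ℕ) : ZMod 91) ≠ 0 → False := by
    intro k hk hk0
    have h7 : (f a) ^ k = 1 := by
      apply Subtype.ext
      show ((f a : Lam (0, 1)) : Mono) ^ k = 1
      rw [hst, L_pow, hk, L_one]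
    rw [← map_pow] at h7
    exact hak k hk0 (f.map_eq_one_iff.1 h7)
  rcases hh_two (cc t') with h | h | h
  · rw [h] at h6
    refine key 73 ?_ (by decide)
    push_cast
    linear_combination -h6
  · rw [h] at h6
    refine key 7 ?_ (by decide)
    push_cast
    linear_combination h6
  · rw [h] at h6
    refine key 65 ?_ (by decide)
    push_cast
    linear_combination -h6

end Pool.Agent.X146.SSF
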