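import Mathlib

/-!
Finite group representations over `ℝ` on possibly infinite dimensional spaces: two subgroups
whose elements correspond under a bijection moving every element inside its conjugacy class
have fixed spaces of the same dimension.
-/

namespace Pool.Agent.X146.SSF

open Module

section Fix

variable {G V : Type*} [Group G] [AddCommGroup V] [Module ℝ V]

/-- The vectors fixed by a subgroup. -/
def fixSub (ρ : G →* (V →ₗ[ℝ] V)) (Γ : Subgroup G) : Submodule ℝ V where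
  carrier := {v | ∀ g ∈ Γ, ρ g v = v}
  zero_mem' g _ := by simp
  add_mem' hv hw g hg := by simp only [hv g hg, hw g hg, map_add]
  smul_mem' r v hv g hg := by simp only [hv g hg, map_smul]

theorem mem_fixSub {ρ : G →* (V →ₗ[ℝ] V)} {Γ : Subgroup G} {v : V} :
    v ∈ fixSub ρ Γ ↔ ∀ g ∈ Γ, ρ g v = v := Iff.rfl

theorem finrank_fix [FiniteDimensional ℝ V] (ρ : G →* (V →ₗ[ℝ] V)) (Γ : Subgroup G)
    [Fintype Γ] :
    (finrank ℝ (fixSub ρ Γ) : ℝ)
      = (Fintype.card Γ : ℝ)⁻¹ * ∑ g : Γ, LinearMap.trace ℝ V (ρ g) := by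
  classical
  have : Invertible (Fintype.card Γ : ℝ) :=
    invertibleOfNonzero (by exact_mod_cast Fintype.card_ne_zero)
  let τ : Representation ℝ Γ V := ρ.comp Γ.subtype
  have h1 : fixSub ρ Γ = τ.invariants := by
    ext v
    simp only [mem_fixSub, Representation.mem_invariants]
    constructor
    · intro h g
      exact h g g.2
    · intro h g hg
      exact h ⟨g, hg⟩
  have h2 := (Representation.isProj_averageMap τ).trace
  rw [h1, ← h2]
  have h3 : Representation.averageMap τ = (Fintype.card Γ : ℝ)⁻¹ • ∑ g : Γ, ρ g := by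
    unfold Representation.averageMap GroupAlgebra.average
    rw [map_smul, map_sum]
    simp only [Representation.asAlgebraHom_of]
    rw [invOf_eq_inv]
    rfl
  rw [h3, map_smul, map_sum, smul_eq_mul]

theorem trace_conj_eq [FiniteDimensional ℝ V] (ρ : G →* (V →ₗ[ℝ] V)) {g h : G}
    (hc : IsConj g h) : LinearMap.trace ℝ V (ρ g) = LinearMap.trace ℝ V (ρ h) := by
  obtain ⟨c, hc⟩ := isConj_iff.1 hc
  rw [← hc, ρ.map_mul, ρ.map_mul, LinearMap.trace_mul_comm, ← mul_assoc, ← ρ.map_mul]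
  simp

theorem finrank_fix_eq [FiniteDimensional ℝ V] (ρ : G →* (V →ₗ[ℝ] V)) (Γ₁ Γ₂ : Subgroup G)
    [Finite Γ₁] [Finite Γ₂] (e : Γ₁ ≃ Γ₂) (he : ∀ g : Γ₁, IsConj (g : G) (e g : G)) :
    finrank ℝ (fixSub ρ Γ₁) = finrank ℝ (fixSub ρ Γ₂) := by
  classical
  have := Fintype.ofFinite Γ₁
  have := Fintype.ofFinite Γ₂
  have h1 := finrank_fix ρ Γ₁
  have h2 := finrank_fix ρ Γ₂
  have h3 : (finrank ℝ (fixSub ρ Γ₁) : ℝ) = finrank ℝ (fixSub ρ Γ₂) := by
    rw [h1, h2, Fintype.card_congr e]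
    congr 1
    rw [← Equiv.sum_comp e]
    exact Finset.sum_congr rfl fun g _ => trace_conj_eq ρ (he g)
  exact_mod_cast h3

theorem rank_le_of_conj [Finite G] (ρ : G →* (V →ₗ[ℝ] V)) (W : Submodule ℝ V)
    (hW : ∀ g : G, ∀ w ∈ W, ρ g w ∈ W) (Γ₁ Γ₂ : Subgroup G)
    (e : Γ₁ ≃ Γ₂) (he : ∀ g : Γ₁, IsConj (g : G) (e g : G)) (n : ℕ)
    (hn : (n : Cardinal) ≤ Module.rank ℝ (W ⊓ fixSub ρ Γ₁ : Submodule ℝ V)) :
    (n : Cardinal) ≤ Module.rank ℝ (W ⊓ fixSub ρ Γ₂ : Submodule ℝ V) := by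
  classical
  rw [Module.le_rank_iff] at hn
  obtain ⟨v, hv⟩ := hn
  let U : Submodule ℝ V := Submodule.span ℝ (Set.range fun p : G × Fin n => ρ p.1 (v p.2 : V))
  have : FiniteDimensional ℝ U := FiniteDimensional.span_of_finite ℝ (Set.finite_range _)
  have hU : ∀ g : G, ∀ u ∈ U, ρ g u ∈ U := by
    intro g u hu
    have : U ≤ U.comap (ρ g) := by
      refine Submodule.span_le.2 ?_
      rintro _ ⟨p, rfl⟩
      refine Submodule.subset_span ⟨(g * p.1, p.2), ?_⟩
      simp [map_mul]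
    exact this hu
  have hUW : U ≤ W := by
    refine Submodule.span_le.2 ?_
    rintro _ ⟨p, rfl⟩
    exact hW p.1 _ (v p.2).2.1
  let σ : G →* (U →ₗ[ℝ] U) :=
    { toFun := fun g => (ρ g).restrict (hU g)
      map_one' := by ext u; simp
      map_mul' := fun g h => by ext u; simp }
  have hσ : ∀ g (u : U), ((σ g u : U) : V) = ρ g u := fun g u => rfl
  have hvU : ∀ i, (v i : V) ∈ U := fun i => Submodule.subset_span ⟨(1, i), by simp⟩
  -- the `v i` inside the fixed space of `Γ₁` on `U`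
  let w : Fin n → fixSub σ Γ₁ := fun i => ⟨⟨v i, hvU i⟩, fun g hg => by
    apply Subtype.ext
    rw [hσ]
    exact (v i).2.2 g hg⟩
  have hw : LinearIndependent ℝ w := by
    have h1 : LinearIndependent ℝ (fun i => (v i : V)) :=
      hv.map' (Submodule.subtype _) (Submodule.ker_subtype _)
    refine LinearIndependent.of_comp (U.subtype.comp (fixSub σ Γ₁).subtype) ?_
    exact h1
  have h2 : n ≤ finrank ℝ (fixSub σ Γ₁) := by
    have := hw.fintype_card_le_finrank
    simpa using this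
  rw [finrank_fix_eq σ Γ₁ Γ₂ e he] at h2
  let j : fixSub σ Γ₂ →ₗ[ℝ] (W ⊓ fixSub ρ Γ₂ : Submodule ℝ V) :=
    { toFun := fun u => ⟨((u : U) : V), hUW (u : U).2, fun g hg => by
        have := u.2 g hg
        rw [← hσ, this]⟩
      map_add' := fun a b => rfl
      map_smul' := fun a b => rfl }
  have hj : Function.Injective j := by
    intro a b hab
    have : (((a : U) : V)) = ((b : U) : V) :=
      congrArg (fun z : (W ⊓ fixSub ρ Γ₂ : Submodule ℝ V) => (z : V)) hab
    exact Subtype.ext (Subtype.ext this)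
  calc (n : Cardinal) ≤ (finrank ℝ (fixSub σ Γ₂) : Cardinal) := by exact_mod_cast h2
    _ = Module.rank ℝ (fixSub σ Γ₂) := finrank_eq_rank ℝ _
    _ ≤ Module.rank ℝ (W ⊓ fixSub ρ Γ₂ : Submodule ℝ V) := LinearMap.rank_le_of_injective j hj

end Fix

/-- comparison of natural numbers with the ranks determines finiteness and `finrank` -/
theorem finrank_eq_of_forall {V₁ V₂ : Type*} [AddCommGroup V₁] [Module ℝ V₁]
    [AddCommGroup V₂] [Module ℝ V₂]
    (h : ∀ n : ℕ, (n : Cardinal) ≤ Module.rank ℝ V₁ ↔ (n : Cardinal) ≤ Module.rank ℝ V₂) :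
    (FiniteDimensional ℝ V₁ ↔ FiniteDimensional ℝ V₂) ∧ finrank ℝ V₁ = finrank ℝ V₂ := by
  have h1 : Cardinal.toENat (Module.rank ℝ V₁) = Cardinal.toENat (Module.rank ℝ V₂) := by
    refine le_antisymm ?_ ?_
    · refine ENat.forall_natCast_le_iff_le.1 ?_
      intro n hn
      rw [Cardinal.natCast_le_toENat] at hn ⊢
      exact (h n).1 hn
    · refine ENat.forall_natCast_le_iff_le.1 ?_
      intro n hn
      rw [Cardinal.natCast_le_toENat] at hn ⊢
      exact (h n).2 hn
  constructor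
  · have e1 : FiniteDimensional ℝ V₁ ↔ Module.rank ℝ V₁ < Cardinal.aleph0 :=
      Module.rank_lt_aleph0_iff.symm
    have e2 : FiniteDimensional ℝ V₂ ↔ Module.rank ℝ V₂ < Cardinal.aleph0 :=
      Module.rank_lt_aleph0_iff.symm
    rw [e1, e2, ← Cardinal.toENat_lt_top, ← Cardinal.toENat_lt_top, h1]
  · have h2 := congrArg ENat.toNat h1
    rw [Cardinal.toNat_toENat, Cardinal.toNat_toENat] at h2
    exact h2

end Pool.Agent.X146.SSF
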