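import Mathlib
import Pool.Agent.X146.SSF.Rep

/-!
The Laplace-Beltrami operator of the round unit sphere through homogeneous extensions of
degree `0`, and its eigenspaces on functions invariant under a group of linear isometries.
-/

namespace Pool.Agent.X146.SSF

open Metric Module InnerProductSpace Laplacian
open scoped ContDiff

variable {E : Type*} [NormedAddCommGroup E] [InnerProductSpace ℝ E]

theorem unit_mem {x : E} (h : ¬ x = 0) : ‖x‖⁻¹ • x ∈ sphere (0 : E) 1 := by
  rw [mem_sphere_zero_iff_norm, norm_smul, norm_inv, norm_norm,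
    inv_mul_cancel₀ (norm_ne_zero_iff.2 h)]

/-- The extension, homogeneous of degree `0`, of a function on the unit sphere:
`x ↦ f (x / ‖x‖)` for `x ≠ 0` (and `0` at `0`). -/
noncomputable def radialExt (f : sphere (0 : E) 1 → ℝ) (x : E) : ℝ :=
  open Classical in if h : x = 0 then 0 else f ⟨‖x‖⁻¹ • x, unit_mem h⟩

theorem map_mem_sphere (g : E ≃ₗᵢ[ℝ] E) (x : sphere (0 : E) 1) : g x ∈ sphere (0 : E) 1 := by
  rw [mem_sphere_zero_iff_norm, g.norm_map]; exact mem_sphere_zero_iff_norm.1 x.2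

/-- The action of a linear isometry on the unit sphere. -/
def sphereMap (g : E ≃ₗᵢ[ℝ] E) (x : sphere (0 : E) 1) : sphere (0 : E) 1 :=
  ⟨g x, map_mem_sphere g x⟩

theorem radialExt_of_ne {f : sphere (0 : E) 1 → ℝ} {x : E} (h : x ≠ 0) :
    radialExt f x = f ⟨‖x‖⁻¹ • x, unit_mem h⟩ := by
  unfold radialExt
  rw [dif_neg h]

theorem radialExt_zero (f : sphere (0 : E) 1 → ℝ) : radialExt f 0 = 0 := by
  unfold radialExt
  rw [dif_pos rfl]

theorem radialExt_add (f g : sphere (0 : E) 1 → ℝ) :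
    radialExt (f + g) = radialExt f + radialExt g := by
  ext x
  by_cases h : x = 0
  · subst h; simp [radialExt_zero]
  · simp [radialExt_of_ne h]

theorem radialExt_smul (c : ℝ) (f : sphere (0 : E) 1 → ℝ) :
    radialExt (c • f) = c • radialExt f := by
  ext x
  by_cases h : x = 0
  · subst h; simp [radialExt_zero]
  · simp [radialExt_of_ne h]

theorem radialExt_fzero : radialExt (0 : sphere (0 : E) 1 → ℝ) = 0 := by
  ext x
  by_cases h : x = 0
  · subst h; simp [radialExt_zero]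
  · simp [radialExt_of_ne h]

theorem radialExt_comp (f : sphere (0 : E) 1 → ℝ) (g : E ≃ₗᵢ[ℝ] E) :
    radialExt (fun x => f (sphereMap g x)) = radialExt f ∘ g := by
  ext x
  by_cases h : x = 0
  · subst h; simp [radialExt_zero]
  · have h' : g x ≠ 0 := by simpa using h
    rw [Function.comp_apply, radialExt_of_ne h, radialExt_of_ne h']
    congr 1
    apply Subtype.ext
    simp [sphereMap]

variable [FiniteDimensional ℝ E]

theorem laplacian_comp_isometry (F : E → ℝ) (g : E ≃ₗᵢ[ℝ] E) (x : E) :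
    Δ (F ∘ g) x = Δ F (g x) := by
  let v := stdOrthonormalBasis ℝ E
  rw [laplacian_eq_iteratedFDeriv_orthonormalBasis (F ∘ g) v,
    laplacian_eq_iteratedFDeriv_orthonormalBasis F (v.map g)]
  have h : ∀ y, iteratedFDeriv ℝ 2 (F ∘ g) y
      = (iteratedFDeriv ℝ 2 F (g y)).compContinuousLinearMap
        fun _ => (g.toContinuousLinearEquiv : E →L[ℝ] E) := by
    intro y
    have := g.toContinuousLinearEquiv.iteratedFDerivWithin_comp_right (s := Set.univ) F
      uniqueDiffOn_univ (x := y) (Set.mem_univ _) 2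
    simpa [iteratedFDerivWithin_univ] using this
  simp only [h, ContinuousMultilinearMap.compContinuousLinearMap_apply]
  refine Finset.sum_congr rfl fun i _ => ?_
  congr 1
  funext j
  fin_cases j <;> simp

/-- `f` is a smooth function on the unit sphere of `E` with `Δ_S f = -lam f`, where the
Laplace-Beltrami operator `Δ_S f` of the round sphere is the restriction to the sphere of the
Laplacian of the degree-`0` homogeneous extension of `f`. -/
def IsEigen (lam : ℝ) (f : sphere (0 : E) 1 → ℝ) : Prop :=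
  ContDiffOn ℝ ∞ (radialExt f) {0}ᶜ ∧
    ∀ x : sphere (0 : E) 1, Δ (radialExt f) (x : E) = -lam * f x

theorem isEigen_zero (lam : ℝ) : IsEigen lam (0 : sphere (0 : E) 1 → ℝ) := by
  constructor
  · rw [radialExt_fzero]; exact contDiffOn_const
  · intro x
    rw [radialExt_fzero]
    have : Δ (fun _ : E => (0 : ℝ)) = 0 := by simp
    have h2 : Δ (0 : E → ℝ) = 0 := this
    rw [h2]; simp

theorem isEigen_add {lam : ℝ} {f g : sphere (0 : E) 1 → ℝ} (h1 : IsEigen lam f)
    (h2 : IsEigen lam g) : IsEigen lam (f + g) := by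
  obtain ⟨hf, hf'⟩ := h1
  obtain ⟨hg, hg'⟩ := h2
  refine ⟨by rw [radialExt_add]; exact hf.add hg, fun x => ?_⟩
  have hx : (x : E) ≠ 0 := by
    intro h
    have := mem_sphere_zero_iff_norm.1 x.2
    rw [h] at this
    simp at this
  have hn : ({0}ᶜ : Set E) ∈ nhds (x : E) := isOpen_compl_singleton.mem_nhds hx
  rw [radialExt_add, ContDiffAt.laplacian_add ((hf.contDiffAt hn).of_le ENat.LEInfty.out)
    ((hg.contDiffAt hn).of_le ENat.LEInfty.out), hf' x, hg' x]
  simp; ring

theorem isEigen_smul {lam : ℝ} (c : ℝ) {f : sphere (0 : E) 1 → ℝ} (h1 : IsEigen lam f) :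
    IsEigen lam (c • f) := by
  obtain ⟨hf, hf'⟩ := h1
  refine ⟨by rw [radialExt_smul]; exact contDiffOn_const.smul hf, fun x => ?_⟩
  have hx : (x : E) ≠ 0 := by
    intro h
    have := mem_sphere_zero_iff_norm.1 x.2
    rw [h] at this
    simp at this
  have hn : ({0}ᶜ : Set E) ∈ nhds (x : E) := isOpen_compl_singleton.mem_nhds hx
  rw [radialExt_smul, laplacian_smul c ((hf.contDiffAt hn).of_le ENat.LEInfty.out), hf' x]
  simp; ring

/-- The eigenspace: the space of functions `f` with `IsEigen lam f`. -/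
def eigenAll (E : Type*) [NormedAddCommGroup E] [InnerProductSpace ℝ E]
    [FiniteDimensional ℝ E] (lam : ℝ) : Submodule ℝ (sphere (0 : E) 1 → ℝ) where
  carrier := {f | IsEigen lam f}
  zero_mem' := isEigen_zero lam
  add_mem' := isEigen_add
  smul_mem' := fun c _ => isEigen_smul c

theorem mem_eigenAll {lam : ℝ} {f : sphere (0 : E) 1 → ℝ} :
    f ∈ eigenAll E lam ↔ ContDiffOn ℝ ∞ (radialExt f) {0}ᶜ ∧
      ∀ x : sphere (0 : E) 1, Δ (radialExt f) (x : E) = -lam * f x := Iff.rfl

omit [FiniteDimensional ℝ E] in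
theorem inv_add {Γ : Subgroup (E ≃ₗᵢ[ℝ] E)} {a b : sphere (0 : E) 1 → ℝ}
    (ha : ∀ g ∈ Γ, ∀ x, a (sphereMap g x) = a x) (hb : ∀ g ∈ Γ, ∀ x, b (sphereMap g x) = b x) :
    ∀ g ∈ Γ, ∀ x, (a + b) (sphereMap g x) = (a + b) x :=
  fun g hg x => by simp [ha g hg x, hb g hg x]

omit [FiniteDimensional ℝ E] in
theorem inv_smul' {Γ : Subgroup (E ≃ₗᵢ[ℝ] E)} (c : ℝ) {a : sphere (0 : E) 1 → ℝ}
    (ha : ∀ g ∈ Γ, ∀ x, a (sphereMap g x) = a x) :
    ∀ g ∈ Γ, ∀ x, (c • a) (sphereMap g x) = (c • a) x :=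
  fun g hg x => by simp [ha g hg x]

/-- The functions on the sphere invariant under a group of linear isometries. -/
def invFun (Γ : Subgroup (E ≃ₗᵢ[ℝ] E)) : Submodule ℝ (sphere (0 : E) 1 → ℝ) where
  carrier := {f | ∀ g ∈ Γ, ∀ x, f (sphereMap g x) = f x}
  zero_mem' := fun _ _ _ => rfl
  add_mem' := inv_add
  smul_mem' := fun c _ => inv_smul' c

theorem eigenAll_comp {lam : ℝ} {f : sphere (0 : E) 1 → ℝ} (hf : f ∈ eigenAll E lam)
    (g : E ≃ₗᵢ[ℝ] E) : (fun x => f (sphereMap g x)) ∈ eigenAll E lam := by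
  obtain ⟨h1, h2⟩ := hf
  refine ⟨?_, fun x => ?_⟩
  · rw [radialExt_comp]
    refine h1.comp g.toContinuousLinearEquiv.contDiff.contDiffOn ?_
    intro x hx
    simpa using hx
  · rw [radialExt_comp, laplacian_comp_isometry]
    exact h2 (sphereMap g x)

/-- The action of a group on functions on the sphere through linear isometries. -/
noncomputable def funAct {M : Type*} [Group M] (τ : M →* (E ≃ₗᵢ[ℝ] E)) :
    M →* ((sphere (0 : E) 1 → ℝ) →ₗ[ℝ] (sphere (0 : E) 1 → ℝ)) where
  toFun m :=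
    { toFun := fun f x => f (sphereMap (τ m⁻¹) x)
      map_add' := fun _ _ => rfl
      map_smul' := fun _ _ => rfl }
  map_one' := by
    ext f x
    simp only [inv_one, map_one]
    rfl
  map_mul' a b := by
    ext f x
    simp only [mul_inv_rev, map_mul]
    rfl

omit [FiniteDimensional ℝ E] in
theorem funAct_apply {M : Type*} [Group M] (τ : M →* (E ≃ₗᵢ[ℝ] E)) (m : M)
    (f : sphere (0 : E) 1 → ℝ) (x : sphere (0 : E) 1) :
    funAct τ m f x = f (sphereMap (τ m⁻¹) x) := rfl

omit [FiniteDimensional ℝ E] in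
theorem fixSub_funAct {M : Type*} [Group M] (τ : M →* (E ≃ₗᵢ[ℝ] E)) (L : Subgroup M) :
    fixSub (funAct τ) L = invFun (L.map τ) := by
  ext f
  constructor
  · rintro h _ ⟨m, hm, rfl⟩ x
    have := congrFun (h m⁻¹ (L.inv_mem hm)) x
    rw [funAct_apply, inv_inv] at this
    exact this
  · intro h m hm
    funext x
    rw [funAct_apply]
    exact h _ ⟨m⁻¹, L.inv_mem hm, rfl⟩ x

/-- The eigenspace of the quotient of the sphere by `Γ`: the `Γ`-invariant eigenfunctions. -/
def eigenQuot (Γ : Subgroup (E ≃ₗᵢ[ℝ] E)) (lam : ℝ) : Submodule ℝ (sphere (0 : E) 1 → ℝ) :=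
  eigenAll E lam ⊓ invFun Γ

/-- Two subgroups of isometries are isospectral: all eigenspaces of invariant functions have the
same dimension. -/
def Isospectral (Γ₁ Γ₂ : Subgroup (E ≃ₗᵢ[ℝ] E)) : Prop :=
  ∀ lam : ℝ, (FiniteDimensional ℝ (eigenQuot Γ₁ lam) ↔ FiniteDimensional ℝ (eigenQuot Γ₂ lam)) ∧
    finrank ℝ (eigenQuot Γ₁ lam) = finrank ℝ (eigenQuot Γ₂ lam)

theorem isospectral_of_conj {M : Type*} [Group M] [Finite M] (τ : M →* (E ≃ₗᵢ[ℝ] E))
    (L₁ L₂ : Subgroup M) (e : L₁ ≃ L₂) (he : ∀ g : L₁, IsConj (g : M) (e g : M)) :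
    Isospectral (L₁.map τ) (L₂.map τ) := by
  intro lam
  refine finrank_eq_of_forall fun n => ?_
  unfold eigenQuot
  rw [← fixSub_funAct, ← fixSub_funAct]
  have hW : ∀ g : M, ∀ w ∈ eigenAll E lam, funAct τ g w ∈ eigenAll E lam :=
    fun g w hw => eigenAll_comp hw _
  constructor
  · exact rank_le_of_conj (funAct τ) _ hW L₁ L₂ e he n
  · refine rank_le_of_conj (funAct τ) _ hW L₂ L₁ e.symm (fun g => ?_) n
    have := he (e.symm g)
    rw [Equiv.apply_symm_apply] at this
    exact this.symm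

end Pool.Agent.X146.SSF
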