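import Mathlib
import Pool.Agent.X146.SSF.Lap
import Pool.Agent.X146.SSF.Grp

/-!
The monomial group acts on `ℂ^9 = ℝ^18`; the two subgroups of order `819` act freely on the
unit sphere.
-/

namespace Pool.Agent.X146.SSF

open Metric Module

/-- The character of the torus of exponents. -/
noncomputable def chi (q : Tor) : Circle := ZMod.toCircle q.1 * ZMod.toCircle q.2

theorem chi_add (q r : Tor) : chi (q + r) = chi q * chi r := by
  unfold chi
  rw [Prod.fst_add, Prod.snd_add, AddChar.map_add_eq_mul, AddChar.map_add_eq_mul]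
  exact mul_mul_mul_comm _ _ _ _

theorem chi_zero : chi 0 = 1 := by
  unfold chi
  rw [Prod.fst_zero, Prod.snd_zero, AddChar.map_zero_eq_one, AddChar.map_zero_eq_one, one_mul]

theorem chi_eq_one {q : Tor} (h : chi q = 1) : q = 0 := by
  obtain ⟨x, y⟩ := q
  unfold chi at h
  simp only at h
  have h1 : ZMod.toCircle x ^ 91 = 1 := by
    rw [← AddChar.map_nsmul_eq_pow]
    have : (91 : ℕ) • x = 0 := by
      rw [nsmul_eq_mul, ZMod.natCast_self, zero_mul]
    rw [this, AddChar.map_zero_eq_one]
  have h2 : ZMod.toCircle y ^ 91 = ZMod.toCircle y := by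
    rw [← AddChar.map_nsmul_eq_pow]
    have : (91 : ℕ) • y = y := by
      rw [nsmul_eq_mul]
      have h3 : ((91 : ℕ) : ZMod 9) = 1 := by decide
      rw [h3, one_mul]
    rw [this]
  have h3 : ZMod.toCircle y = 1 := by
    have := congrArg (· ^ 91) h
    simp only [mul_pow, h1, h2, one_mul, one_pow] at this
    exact this
  have hy : y = 0 := ZMod.injective_toCircle (by rw [h3, AddChar.map_zero_eq_one])
  have hx : x = 0 := by
    rw [h3, mul_one] at h
    exact ZMod.injective_toCircle (by rw [h, AddChar.map_zero_eq_one])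
  rw [hx, hy]; rfl

/-- `ℂ^9` as a real inner product space. -/
abbrev EC := PiLp 2 (fun _ : Idx => ℂ)

/-- The monomial action. -/
noncomputable def act (a : Mono) : EC ≃ₗᵢ[ℝ] EC :=
  (LinearIsometryEquiv.piLpCongrLeft 2 ℝ ℂ a.p).trans
    (LinearIsometryEquiv.piLpCongrRight 2 fun i => rotation (chi (a.u i)))

theorem act_apply (a : Mono) (x : EC) (i : Idx) :
    act a x i = (chi (a.u i) : ℂ) * x (a.p.symm i) := rfl

/-- The monomial action as a homomorphism. -/
noncomputable def actHom : Mono →* (EC ≃ₗᵢ[ℝ] EC) where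
  toFun := act
  map_one' := by
    ext x i
    rw [act_apply, Mono.one_u, chi_zero, Circle.coe_one, one_mul, Mono.one_p]
    rfl
  map_mul' a b := by
    ext x i
    rw [act_apply, Mono.mul_u, chi_add, Circle.coe_mul, mul_assoc]
    rfl

theorem finrank_EC : finrank ℝ EC = 18 := by
  have h1 : finrank ℝ EC = finrank ℝ (Idx → ℂ) :=
    (WithLp.linearEquiv 2 ℝ (Idx → ℂ)).finrank_eq
  rw [h1, Module.finrank_pi_fintype]
  simp [Complex.finrank_real_complex, ZMod.card]

/-- An isometry of `ℂ^9` with `ℝ^18`. -/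
noncomputable def Phi : EC ≃ₗᵢ[ℝ] EuclideanSpace ℝ (Fin 18) :=
  ((stdOrthonormalBasis ℝ EC).reindex (finCongr finrank_EC)).repr

/-- The action of the monomial group on `ℝ^18`. -/
noncomputable def tau : Mono →* (EuclideanSpace ℝ (Fin 18) ≃ₗᵢ[ℝ] EuclideanSpace ℝ (Fin 18)) where
  toFun a := Phi.symm.trans ((actHom a).trans Phi)
  map_one' := by
    rw [map_one]
    ext x i
    simp
  map_mul' a b := by
    rw [map_mul]
    apply LinearIsometryEquiv.ext
    intro x
    simp

theorem tau_apply (a : Mono) (x : EuclideanSpace ℝ (Fin 18)) :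
    tau a x = Phi (act a (Phi.symm x)) := rfl

theorem act_free (e : Idx) {g : Mono} (hg : g ∈ Lam e) {y : EC} (hy : y ≠ 0)
    (h : act g y = y) : g = 1 := by
  obtain ⟨s, t, rfl⟩ := hg
  obtain ⟨i, hi⟩ : ∃ i, y i ≠ 0 := by
    by_contra hcon
    push Not at hcon
    exact hy (by ext i; simpa using hcon i)
  have key : ∀ s' t', cc t' = 0 → act (L e s' t') y = y → s' = 0 ∧ t' = 0 := by
    intro s' t' hc h'
    have h1 : (act (L e s' t') y) i = y i := by rw [h']
    rw [act_apply, L_p_symm, hc, zero_smul, neg_zero, add_zero] at h1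
    have h2 : (chi ((L e s' t').u i) : ℂ) = 1 := by
      have := mul_right_cancel₀ hi (h1.trans (one_mul _).symm)
      exact this
    have h3 : chi ((L e s' t').u i) = 1 := by
      apply Subtype.ext
      simpa using h2
    have h4 := chi_eq_one h3
    rw [L_u] at h4
    have h5 : s' * hh i = 0 := congrArg Prod.fst h4
    have h6 : t' = 0 := congrArg Prod.snd h4
    refine ⟨?_, h6⟩
    have h7 := hh_cube i
    calc s' = s' * (hh i * (hh i * hh i)) := by rw [h7, mul_one]
      _ = (s' * hh i) * (hh i * hh i) := by ring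
      _ = 0 := by rw [h5, zero_mul]
  have h3 : act (L e s t ^ 3) y = y := by
    have h4 : actHom (L e s t ^ 3) y = y := by
      rw [map_pow]
      have h5 : actHom (L e s t) y = y := h
      show actHom (L e s t) (actHom (L e s t) (actHom (L e s t) y)) = y
      rw [h5, h5, h5]
    exact h4
  obtain ⟨s', hs'⟩ := L_pow_snd e s t 3
  rw [hs'] at h3
  have hc3 : cc (((3 : ℕ) : ZMod 9) * t) = 0 := by
    rw [map_mul]
    have : cc (((3 : ℕ) : ZMod 9)) = 0 := by decide
    rw [this, zero_mul]
  have h4 := (key _ _ hc3 h3).2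
  have h5 : cc t = 0 := three_mul_zero t (by simpa using h4)
  obtain ⟨h6, h7⟩ := key s t h5 h
  rw [h6, h7, L_one]

theorem tau_free (e : Idx) {g : Mono} (hg : g ∈ Lam e) {x : EuclideanSpace ℝ (Fin 18)}
    (hx : x ≠ 0) (h : tau g x = x) : g = 1 := by
  refine act_free e hg (y := Phi.symm x) (by simpa using hx) ?_
  rw [tau_apply] at h
  have := congrArg Phi.symm h
  rwa [LinearIsometryEquiv.symm_apply_apply] at this

theorem exists_unit_vector : ∃ x : EuclideanSpace ℝ (Fin 18), x ≠ 0 :=
  ⟨EuclideanSpace.single 0 1, by simp⟩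

theorem tau_inj (e : Idx) : Function.Injective (tau.comp (Lam e).subtype) := by
  rw [injective_iff_map_eq_one]
  intro g hg
  obtain ⟨x, hx⟩ := exists_unit_vector
  have h1 : tau (g : Mono) = 1 := hg
  have h2 : tau (g : Mono) x = x := by rw [h1]; rfl
  exact Subtype.ext (tau_free e g.2 hx h2)

/-- The two groups are isomorphic to their images. -/
noncomputable def imageEquiv (e : Idx) : Lam e ≃* (Lam e).map tau :=
  (MonoidHom.ofInjective (tau_inj e)).trans
    (MulEquiv.subgroupCongr (by rw [MonoidHom.range_comp, Subgroup.range_subtype]))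

end Pool.Agent.X146.SSF
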